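import Pool.Agent.Helper55.UN.CR3
import Pool.Agent.Helper16.UN.CR2

/-!
Unitary Mumford-Tate pairs, block CE4: spin systems. In a simply laced system in which some root
of value one has a unique orthogonal root of value one, the weights are those of a half spin
representation.
-/

open Module

namespace UN

namespace CE4

variable {K : Type*} [Field K] [CharZero K] {M : Type*} [AddCommGroup M] [Module K M]
  {B : LinearMap.BilinForm K M} {s : M →ₗ[K] K} {c : K} {Φ X : Finset M}

omit [CharZero K] in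
/-- reflections preserve the roots -/
theorem refl_root (h : USL B s c Φ X) {γ g : M} (hγ : γ ∈ Φ) (hg : g ∈ Φ) :
    γ - B γ g • g ∈ Φ := by
  by_cases h1 : γ = g
  · subst h1
    rw [h.two γ hγ, two_smul, sub_add_eq_sub_sub, sub_self, zero_sub]
    exact h.neg γ hγ
  by_cases h2 : γ = -g
  · subst h2
    rw [map_neg, LinearMap.neg_apply, h.two g hg, neg_smul, two_smul]
    simpa using hg
  rcases h.pair γ hγ g hg h1 h2 with h3 | h3 | h3
  · rw [h3, neg_one_smul, sub_neg_eq_add]
    exact CR2.add_mem h hγ hg h3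
  · rw [h3, zero_smul, sub_zero]; exact hγ
  · rw [h3, one_smul]; exact h.sub γ hγ g hg h3

/-- the involution on the roots of value one -/
structure Inv (B : LinearMap.BilinForm K M) (s : M →ₗ[K] K) (Φ : Finset M) (p : M → M) :
    Prop where
  mem : ∀ a ∈ Φ, s a = 1 → p a ∈ Φ
  one : ∀ a ∈ Φ, s a = 1 → s (p a) = 1
  inv : ∀ a ∈ Φ, s a = 1 → p (p a) = a
  ne : ∀ a ∈ Φ, s a = 1 → p a ≠ a
  zero : ∀ a ∈ Φ, s a = 1 → B a (p a) = 0
  adj : ∀ a ∈ Φ, ∀ b ∈ Φ, s a = 1 → s b = 1 → b ≠ a → b ≠ p a → B a b = 1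

theorem exists_inv (h : USL B s c Φ X) {α β : M} (hα : α ∈ Φ) (hβ : β ∈ Φ) (hsα : s α = 1)
    (hsβ : s β = 1) (hαβ : B β α = 0) (hu : ∀ γ ∈ Φ, s γ = 1 → B β γ = 0 → γ = α) :
    ∃ p : M → M, Inv B s Φ p := by
  classical
  have key := h.conn {a | ∃ a' ∈ Φ, s a' = 1 ∧ B a a' = 0 ∧
    ∀ γ ∈ Φ, s γ = 1 → B a γ = 0 → γ = a'} ⟨β, hβ, hsβ, α, hα, hsα, hαβ, hu⟩ (by
      rintro a ha b hb hsa hsb hab ⟨a', ha', hsa', haa', hu'⟩
      have hg : a - b ∈ Φ := h.sub a ha b hb hab
      have hsg : s (a - b) = 0 := by rw [map_sub, hsa, hsb, sub_self]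
      have hba : B b a = 1 := by rw [h.symm, hab]
      -- values of the reflection
      have hs : ∀ γ, s (γ - B γ (a - b) • (a - b)) = s γ := by
        intro γ
        rw [map_sub, map_smul, hsg, smul_zero, sub_zero]
      have hb2 : B (a - b) (a - b) = 2 := h.two _ hg
      refine ⟨a' - B a' (a - b) • (a - b), refl_root h ha' hg, by rw [hs, hsa'], ?_, ?_⟩
      · have h1 : B a' a = 0 := by rw [h.symm, haa']
        have h5 : B a' b = B b a' := h.symm _ _
        have h6 := h.two b hb
        simp only [map_sub, map_smul, smul_eq_mul, h1, hba]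
        rw [h5, h6]
        ring
      · intro γ hγ hsγ hbγ
        have h2 : γ - B γ (a - b) • (a - b) = a' := by
          apply hu' _ (refl_root h hγ hg) (by rw [hs, hsγ])
          have h1 : B γ b = 0 := by rw [h.symm, hbγ]
          have h5 : B γ a = B a γ := h.symm _ _
          have h6 := h.two a ha
          simp only [map_sub, map_smul, smul_eq_mul, h1, hab, sub_zero]
          rw [h5, h6]
          ring
        have h3 : B a' (a - b) = - B γ (a - b) := by
          rw [← h2]
          simp only [map_sub, map_smul, LinearMap.sub_apply, LinearMap.smul_apply, smul_eq_mul]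
          have h4 := hb2
          simp only [map_sub, LinearMap.sub_apply] at h4
          linear_combination (-(B γ a - B γ b)) * h4
        rw [h3, ← h2, neg_smul]
        abel)
  have key' : ∀ a, ∃ a', a ∈ Φ → s a = 1 → a' ∈ Φ ∧ s a' = 1 ∧ B a a' = 0 ∧
      ∀ γ ∈ Φ, s γ = 1 → B a γ = 0 → γ = a' := by
    intro a
    by_cases ha : a ∈ Φ ∧ s a = 1
    · obtain ⟨a', h1, h2, h3, h4⟩ := key a ha.1 ha.2
      exact ⟨a', fun _ _ => ⟨h1, h2, h3, h4⟩⟩
    · exact ⟨a, fun h1 h2 => absurd ⟨h1, h2⟩ ha⟩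
  choose p hp using key'
  refine ⟨p, fun a ha hsa => (hp a ha hsa).1, fun a ha hsa => (hp a ha hsa).2.1, ?_, ?_,
    fun a ha hsa => (hp a ha hsa).2.2.1, ?_⟩
  · intro a ha hsa
    obtain ⟨h1, h2, h3, h4⟩ := hp a ha hsa
    exact ((hp (p a) h1 h2).2.2.2 a ha hsa (by rw [h.symm, h3])).symm
  · intro a ha hsa h1
    have h2 := (hp a ha hsa).2.2.1
    rw [h1, h.two a ha] at h2
    exact two_ne_zero h2
  · intro a ha b hb hsa hsb hba hbp
    rcases CR2.f2 h ha hb hsa hsb (Ne.symm hba) with h1 | h1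
    · exact absurd ((hp a ha hsa).2.2.2 b hb hsb h1) hbp
    · exact h1

omit [CharZero K] in
/-- the sum of the values on a pair -/
theorem pair_sum (h : USL B s c Φ X) {p : M → M} (hp : Inv B s Φ p) {a : M} (ha : a ∈ Φ)
    (hsa : s a = 1) (x : M) : B x a + B x (p a) = 2 * s x := by
  obtain ⟨u, hu⟩ := h.exists_vec
  have h1 : a + p a - (2 : K) • u = 0 := by
    apply h.hit
    intro b hb hsb
    simp only [map_sub, map_add, map_smul, LinearMap.sub_apply, LinearMap.add_apply,
      LinearMap.smul_apply, smul_eq_mul, hu, hsb]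
    by_cases hba : b = a
    · subst hba
      rw [h.two b hb, h.symm (p b) b, hp.zero b hb hsb]
      ring
    · by_cases hbp : b = p a
      · subst hbp
        rw [h.two _ hb, hp.zero a ha hsa]
        ring
      · have h2 : b ≠ p (p a) := by rw [hp.inv a ha hsa]; exact hba
        rw [hp.adj a ha b hb hsa hsb hba hbp,
          hp.adj (p a) (hp.mem a ha hsa) b hb (hp.one a ha hsa) hsb hbp h2]
        ring
  have h2 : a + p a = (2 : K) • u := by rw [← sub_eq_zero, h1]
  rw [← map_add, h2, map_smul, h.symm x u, hu, smul_eq_mul]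

/-- the value of the coweight is one half -/
theorem two_c (h : USL B s c Φ X) {p : M → M} (hp : Inv B s Φ p) : 2 * c = 1 := by
  obtain ⟨a, ha, hsa⟩ := h.ex
  obtain ⟨x, hx, hxa⟩ := h.faith a ha
  have h1 := (CR2.f1' h hx ha hsa hxa).1
  have h2 := pair_sum h hp ha hsa x
  rw [h1, hxa, CR2.f4 h ha (hp.mem a ha hsa) hx hsa (hp.one a ha hsa) (hp.zero a ha hsa) hxa,
    add_zero] at h2
  exact h2.symm

open Classical in
/-- the roots of value one on which `x` is one -/
noncomputable def S (B : LinearMap.BilinForm K M) (s : M →ₗ[K] K) (Φ : Finset M) (x : M) :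
    Finset M := Φ.filter (fun a => s a = 1 ∧ B x a = 1)

omit [CharZero K] in
theorem mem_S {x a : M} : a ∈ S B s Φ x ↔ a ∈ Φ ∧ s a = 1 ∧ B x a = 1 := by
  classical
  exact Finset.mem_filter

/-- sections of the involution -/
def Sec (s : M →ₗ[K] K) (Φ : Finset M) (p : M → M) (T : Finset M) : Prop :=
  (∀ a ∈ T, a ∈ Φ ∧ s a = 1) ∧ ∀ a ∈ Φ, s a = 1 → (a ∈ T ↔ p a ∉ T)

theorem vals (h : USL B s c Φ X) {p : M → M} (hp : Inv B s Φ p) {x : M} (hx : x ∈ X)
    (hsx : s x = c) {a : M} (ha : a ∈ Φ) (hsa : s a = 1) :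
    (B x a = 1 ∧ B x (p a) = 0) ∨ (B x a = 0 ∧ B x (p a) = 1) := by
  have h1 := pair_sum h hp ha hsa x
  rw [hsx, two_c h hp] at h1
  rcases CR2.f1 h hx hsx ha hsa with h2 | h2
  · right
    refine ⟨h2, ?_⟩
    linear_combination h1 - h2
  · left
    refine ⟨h2, ?_⟩
    linear_combination h1 - h2

theorem sec_S (h : USL B s c Φ X) {p : M → M} (hp : Inv B s Φ p) {x : M} (hx : x ∈ X)
    (hsx : s x = c) : Sec s Φ p (S B s Φ x) := by
  refine ⟨fun a ha => ⟨(mem_S.1 ha).1, (mem_S.1 ha).2.1⟩, fun a ha hsa => ?_⟩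
  rcases vals h hp hx hsx ha hsa with ⟨h1, h2⟩ | ⟨h1, h2⟩
  · constructor
    · intro _ h3
      have h4 := (mem_S.1 h3).2.2
      rw [h2] at h4
      exact zero_ne_one h4
    · intro _
      exact mem_S.2 ⟨ha, hsa, h1⟩
  · constructor
    · intro h3
      have h4 := (mem_S.1 h3).2.2
      rw [h1] at h4
      exact absurd h4 zero_ne_one
    · intro h3
      exact absurd (mem_S.2 ⟨hp.mem a ha hsa, hp.one a ha hsa, h2⟩) h3

/-- double flips -/
theorem flip (h : USL B s c Φ X) {p : M → M} (hp : Inv B s Φ p) {x : M} (hx : x ∈ X)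
    (hsx : s x = c) {a b : M} (ha : a ∈ S B s Φ x) (hb : b ∈ S B s Φ x) (hab : a ≠ b) :
    ∃ z ∈ X, s z = c ∧ ∀ w, w ∈ S B s Φ z ↔
      (w ∈ S B s Φ x ∧ w ≠ a ∧ w ≠ b) ∨ w = p a ∨ w = p b := by
  obtain ⟨haΦ, hsa, hxa⟩ := mem_S.1 ha
  obtain ⟨hbΦ, hsb, hxb⟩ := mem_S.1 hb
  have hpaΦ := hp.mem a haΦ hsa
  have hpbΦ := hp.mem b hbΦ hsb
  have hspa := hp.one a haΦ hsa
  have hspb := hp.one b hbΦ hsb
  have hxpa : B x (p a) = 0 := by
    rcases vals h hp hx hsx haΦ hsa with ⟨-, h2⟩ | ⟨h1, -⟩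
    · exact h2
    · rw [hxa] at h1; exact absurd h1 one_ne_zero
  have hxpb : B x (p b) = 0 := by
    rcases vals h hp hx hsx hbΦ hsb with ⟨-, h2⟩ | ⟨h1, -⟩
    · exact h2
    · rw [hxb] at h1; exact absurd h1 one_ne_zero
  have hapb : a ≠ p b := by
    rintro h1; rw [← h1, hxa] at hxpb; exact one_ne_zero hxpb
  have hbpa : b ≠ p a := by
    rintro h1; rw [← h1, hxb] at hxpa; exact one_ne_zero hxpa
  have hpab : p a ≠ p b := by
    intro h1
    apply hab
    rw [← hp.inv a haΦ hsa, h1, hp.inv b hbΦ hsb]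
  have e1 : B a (p b) = 1 := by
    refine hp.adj a haΦ (p b) hpbΦ hsa hspb (Ne.symm hapb) (Ne.symm hpab)
  have hg : a - p b ∈ Φ := h.sub a haΦ (p b) hpbΦ e1
  have hxg : B x (a - p b) = 1 := by rw [map_sub, hxa, hxpb, sub_zero]
  refine ⟨x - (a - p b), h.xsub x hx _ hg hxg, ?_, ?_⟩
  · rw [map_sub, map_sub, hsa, hspb, sub_self, sub_zero, hsx]
  intro w
  have hval : B (x - (a - p b)) w = B x w - B a w + B (p b) w := by
    simp only [map_sub, LinearMap.sub_apply]
    ring
  by_cases hw : w ∈ Φ ∧ s w = 1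
  · obtain ⟨hwΦ, hsw⟩ := hw
    have hiff : w ∈ S B s Φ (x - (a - p b)) ↔ B x w - B a w + B (p b) w = 1 := by
      rw [mem_S, hval]
      exact ⟨fun h1 => h1.2.2, fun h1 => ⟨hwΦ, hsw, h1⟩⟩
    have hiff' : w ∈ S B s Φ x ↔ B x w = 1 :=
      ⟨fun h1 => (mem_S.1 h1).2.2, fun h1 => mem_S.2 ⟨hwΦ, hsw, h1⟩⟩
    rw [hiff, hiff']
    by_cases h1 : w = a
    · subst h1
      rw [hxa, h.two w haΦ, h.symm (p b) w, e1]
      constructor
      · intro h2
        exfalso
        have : (1 : K) = 0 := by linear_combination -h2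
        exact one_ne_zero this
      · rintro (h2 | h2 | h2)
        · exact absurd rfl h2.2.1
        · exact absurd h2.symm (hp.ne w haΦ hsa)
        · exact absurd h2 hapb
    by_cases h2 : w = b
    · subst h2
      rw [hxb, hp.adj a haΦ w hbΦ hsa hsb (Ne.symm hab) hbpa, h.symm (p w) w,
        hp.zero w hbΦ hsb]
      constructor
      · intro h2
        exfalso
        have : (1 : K) = 0 := by linear_combination -h2
        exact one_ne_zero this
      · rintro (h2 | h2 | h2)
        · exact absurd rfl h2.2.2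
        · exact absurd h2 hbpa
        · exact absurd h2.symm (hp.ne w hbΦ hsb)
    by_cases h3 : w = p a
    · subst h3
      have e2 : B (p b) (p a) = 1 := by
        refine hp.adj (p b) hpbΦ (p a) hpaΦ hspb hspa hpab ?_
        rw [hp.inv b hbΦ hsb]
        exact Ne.symm hbpa
      rw [hxpa, hp.zero a haΦ hsa, e2]
      constructor
      · intro _; exact Or.inr (Or.inl rfl)
      · intro _; ring
    by_cases h4 : w = p b
    · subst h4
      rw [hxpb, e1, h.two (p b) hpbΦ]
      constructor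
      · intro _; exact Or.inr (Or.inr rfl)
      · intro _; ring
    have e3 : B a w = 1 := hp.adj a haΦ w hwΦ hsa hsw h1 h3
    have e4 : B (p b) w = 1 := by
      refine hp.adj (p b) hpbΦ w hwΦ hspb hsw h4 ?_
      rw [hp.inv b hbΦ hsb]
      exact h2
    rw [e3, e4]
    constructor
    · intro h5
      exact Or.inl ⟨by linear_combination h5, h1, h2⟩
    · rintro (h5 | h5 | h5)
      · rw [h5.1]; ring
      · exact absurd h5 h3
      · exact absurd h5 h4
  · constructor
    · intro h1
      exact absurd ⟨(mem_S.1 h1).1, (mem_S.1 h1).2.1⟩ hw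
    · rintro (h1 | h1 | h1)
      · exact absurd ⟨(mem_S.1 h1.1).1, (mem_S.1 h1.1).2.1⟩ hw
      · rw [h1] at hw; exact absurd ⟨hpaΦ, hspa⟩ hw
      · rw [h1] at hw; exact absurd ⟨hpbΦ, hspb⟩ hw

open Classical in
/-- all sections at even distance are reached -/
theorem reach (h : USL B s c Φ X) {p : M → M} (hp : Inv B s Φ p) {T : Finset M}
    (hT : Sec s Φ p T) (m : ℕ) : ∀ y ∈ X, s y = c → (T \ S B s Φ y).card = 2 * m →
      ∃ z ∈ X, s z = c ∧ S B s Φ z = T := by
  induction m with
  | zero =>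
    intro y hy hsy hm
    refine ⟨y, hy, hsy, ?_⟩
    have h1 : T ⊆ S B s Φ y := Finset.sdiff_eq_empty_iff_subset.mp (Finset.card_eq_zero.mp hm)
    refine Finset.Subset.antisymm (fun w hw => ?_) h1
    by_contra hcon
    obtain ⟨hwΦ, hsw, -⟩ := mem_S.1 hw
    have h2 : p w ∈ T := by
      by_contra h3
      exact hcon ((hT.2 w hwΦ hsw).2 h3)
    exact ((sec_S h hp hy hsy).2 w hwΦ hsw).1 hw (h1 h2)
  | succ m ih =>
    intro y hy hsy hm
    obtain ⟨a, ha, b, hb, hab⟩ := Finset.one_lt_card.1 (show 1 < (T \ S B s Φ y).card by omega)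
    rw [Finset.mem_sdiff] at ha hb
    obtain ⟨haΦ, hsa⟩ := hT.1 a ha.1
    obtain ⟨hbΦ, hsb⟩ := hT.1 b hb.1
    have hSy := sec_S h hp hy hsy
    have hpa : p a ∈ S B s Φ y := by
      by_contra h3
      exact ha.2 ((hSy.2 a haΦ hsa).2 h3)
    have hpb : p b ∈ S B s Φ y := by
      by_contra h3
      exact hb.2 ((hSy.2 b hbΦ hsb).2 h3)
    have hpab : p a ≠ p b := by
      intro h1
      apply hab
      rw [← hp.inv a haΦ hsa, h1, hp.inv b hbΦ hsb]
    obtain ⟨z, hz, hsz, hSz⟩ := flip h hp hy hsy hpa hpb hpab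
    rw [hp.inv a haΦ hsa, hp.inv b hbΦ hsb] at hSz
    refine ih z hz hsz ?_
    have e : T \ S B s Φ z = ((T \ S B s Φ y).erase a).erase b := by
      ext w
      simp only [Finset.mem_sdiff, Finset.mem_erase, hSz w]
      constructor
      · rintro ⟨h1, h2⟩
        push Not at h2
        refine ⟨h2.2.2, h2.2.1, h1, fun h3 => ?_⟩
        by_cases h4 : w = p a
        · exact (hT.2 a haΦ hsa).1 ha.1 (h4 ▸ h1)
        · have h5 := h2.1 h3 h4
          exact (hT.2 b hbΦ hsb).1 hb.1 (h5 ▸ h1)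
      · rintro ⟨h1, h2, h3, h4⟩
        refine ⟨h3, ?_⟩
        rintro (h5 | h5 | h5)
        · exact h4 h5.1
        · exact h2 h5
        · exact h1 h5
    rw [e, Finset.card_erase_of_mem (Finset.mem_erase.2 ⟨Ne.symm hab, Finset.mem_sdiff.2 hb⟩),
      Finset.card_erase_of_mem (Finset.mem_sdiff.2 ha), hm]
    omega

/-- evenness of the distance of two weights -/
theorem even_dist (h : USL B s c Φ X) {p : M → M} (hp : Inv B s Φ p) [DecidableEq M] {x y : M}
    (hx : x ∈ X) (hy : y ∈ X) (hsx : s x = c) (hsy : s y = c) :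
    Even (S B s Φ x \ S B s Φ y).card := by
  by_contra hodd
  rw [Nat.not_even_iff_odd] at hodd
  obtain ⟨m, hm⟩ := hodd
  obtain ⟨a, ha⟩ : (S B s Φ x \ S B s Φ y).Nonempty := Finset.card_pos.1 (by omega)
  rw [Finset.mem_sdiff] at ha
  obtain ⟨haΦ, hsa, hxa⟩ := mem_S.1 ha.1
  have hSx := sec_S h hp hx hsx
  have hSy := sec_S h hp hy hsy
  have hpaΦ := hp.mem a haΦ hsa
  have hspa := hp.one a haΦ hsa
  have hppa := hp.inv a haΦ hsa
  have hpay : p a ∈ S B s Φ y := by
    by_contra h3
    exact ha.2 ((hSy.2 a haΦ hsa).2 h3)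
  have hpax : p a ∉ S B s Φ x := (hSx.2 a haΦ hsa).1 ha.1
  have hne := hp.ne a haΦ hsa
  -- the section with the pair of `a` flipped
  have hT : Sec s Φ p (insert (p a) ((S B s Φ x).erase a)) := by
    refine ⟨fun w hw => ?_, fun w hw hsw => ?_⟩
    · rcases Finset.mem_insert.1 hw with rfl | hw
      · exact ⟨hpaΦ, hspa⟩
      · exact hSx.1 w (Finset.mem_of_mem_erase hw)
    · simp only [Finset.mem_insert, Finset.mem_erase]
      by_cases h1 : w = a
      · subst h1
        simp [Ne.symm hne]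
      · by_cases h2 : w = p a
        · subst h2
          simp [hppa, Ne.symm hne]
        · have h3 : p w ≠ a := by
            intro h3
            apply h2
            rw [← h3, hp.inv w hw hsw]
          have h4 : p w ≠ p a := by
            intro h4
            apply h1
            rw [← hp.inv w hw hsw, h4, hppa]
          simp [h1, h2, h3, h4, hSx.2 w hw hsw]
  have hcard : (insert (p a) ((S B s Φ x).erase a) \ S B s Φ y).card = 2 * m := by
    have e : insert (p a) ((S B s Φ x).erase a) \ S B s Φ y =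
        (S B s Φ x \ S B s Φ y).erase a := by
      ext w
      simp only [Finset.mem_sdiff, Finset.mem_insert, Finset.mem_erase]
      constructor
      · rintro ⟨h1 | h1, h2⟩
        · rw [h1] at h2; exact absurd hpay h2
        · exact ⟨h1.1, h1.2, h2⟩
      · rintro ⟨h1, h2, h3⟩
        exact ⟨Or.inr ⟨h1, h2⟩, h3⟩
    rw [e, Finset.card_erase_of_mem (Finset.mem_sdiff.2 ha), hm]
    rfl
  obtain ⟨z, hz, hsz, hSz⟩ : ∃ z ∈ X, s z = c ∧
      S B s Φ z = insert (p a) ((S B s Φ x).erase a) := by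
    refine reach h hp hT m y hy hsy ?_
    rw [← hcard]
    apply congrArg
    ext w
    simp only [Finset.mem_sdiff]
  have haz : a ∉ S B s Φ z := by
    rw [hSz]
    simp [Ne.symm hne]
  have hxz : x ≠ z := by
    rintro rfl
    exact haz ha.1
  obtain ⟨g, hg, hxg, hzg⟩ := h.sep x hx z hz hxz
  have hsg : s g = 0 := by
    rcases CR2.vals h hg with h1 | h1 | h1
    · exfalso
      have h2 := CR2.f1 h hx hsx (h.neg g hg) (by rw [map_neg, h1, neg_neg])
      rw [map_neg, hxg] at h2
      rcases h2 with h2 | h2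
      · have : (1 : K) = 0 := by linear_combination -h2
        exact one_ne_zero this
      · have : (2 : K) = 0 := by linear_combination -h2
        exact two_ne_zero this
    · exact h1
    · exfalso
      have h2 := CR2.f1 h hz hsz hg h1
      rw [hzg] at h2
      rcases h2 with h2 | h2
      · have : (1 : K) = 0 := by linear_combination -h2
        exact one_ne_zero this
      · have : (2 : K) = 0 := by linear_combination -h2
        exact two_ne_zero this
  obtain ⟨e, he, f, hf, hse, hsf, hef, rfl⟩ := h.zero_form hg hsg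
  rw [map_sub] at hxg hzg
  have hxe : B x e = 1 := by
    rcases CR2.f1 h hx hsx he hse with h1 | h1
    · exfalso
      rcases CR2.f1 h hx hsx hf hsf with h2 | h2 <;> rw [h1, h2] at hxg
      · have : (1 : K) = 0 := by linear_combination -hxg
        exact one_ne_zero this
      · have : (2 : K) = 0 := by linear_combination -hxg
        exact two_ne_zero this
    · exact h1
  have hze : B z e = 0 := by
    rcases CR2.f1 h hz hsz he hse with h1 | h1
    · exact h1
    · exfalso
      rcases CR2.f1 h hz hsz hf hsf with h2 | h2 <;> rw [h1, h2] at hzg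
      · have : (2 : K) = 0 := by linear_combination hzg
        exact two_ne_zero this
      · have : (1 : K) = 0 := by linear_combination hzg
        exact one_ne_zero this
  have hxf : B x f = 0 := by linear_combination hxe - hxg
  have hzf : B z f = 1 := by linear_combination hze - hzg
  have hea : e = a := by
    by_contra hcon
    have h1 : e ∈ S B s Φ z := by
      rw [hSz]
      exact Finset.mem_insert_of_mem (Finset.mem_erase.2 ⟨hcon, mem_S.2 ⟨he, hse, hxe⟩⟩)
    have h2 := (mem_S.1 h1).2.2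
    rw [hze] at h2
    exact zero_ne_one h2
  have hfa : f = p a := by
    have h1 : f ∈ S B s Φ z := mem_S.2 ⟨hf, hsf, hzf⟩
    rw [hSz, Finset.mem_insert] at h1
    rcases h1 with h1 | h1
    · exact h1
    · exfalso
      have h2 := (mem_S.1 (Finset.mem_of_mem_erase h1)).2.2
      rw [hxf] at h2
      exact zero_ne_one h2
  have h5 := h.two _ hg
  rw [hea, hfa] at h5
  have h6 : B (p a) a = 0 := by rw [h.symm, hp.zero a haΦ hsa]
  simp only [map_sub, LinearMap.sub_apply, h.two a haΦ, h.two _ hpaΦ, h6,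
    hp.zero a haΦ hsa] at h5
  have : (2 : K) = 0 := by linear_combination h5
  exact two_ne_zero this

omit [CharZero K] in
theorem eq_of_S (h : USL B s c Φ X) {x y : M}
    (hx : ∀ w ∈ Φ, s w = 1 → B x w = 0 ∨ B x w = 1)
    (hy : ∀ w ∈ Φ, s w = 1 → B y w = 0 ∨ B y w = 1) (hS : S B s Φ x = S B s Φ y) : x = y := by
  rw [← sub_eq_zero]
  apply h.hit
  intro w hw hsw
  rw [map_sub, LinearMap.sub_apply, sub_eq_zero]
  rcases hx w hw hsw with h1 | h1
  · rcases hy w hw hsw with h2 | h2
    · rw [h1, h2]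
    · exfalso
      have h3 : w ∈ S B s Φ x := by
        rw [hS]
        exact mem_S.2 ⟨hw, hsw, h2⟩
      have h4 := (mem_S.1 h3).2.2
      rw [h1] at h4
      exact zero_ne_one h4
  · have h3 : w ∈ S B s Φ y := by
      rw [← hS]
      exact mem_S.2 ⟨hw, hsw, h1⟩
    rw [h1, (mem_S.1 h3).2.2]

omit [CharZero K] in
theorem card_sdiff_sec {p : M → M} (hp : Inv B s Φ p) [DecidableEq M] {T U : Finset M}
    (hT : Sec s Φ p T) (hU : Sec s Φ p U) : (T \ U).card = (U \ T).card := by
  refine Finset.card_bij' (fun w _ => p w) (fun w _ => p w) ?_ ?_ ?_ ?_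
  · intro w hw
    rw [Finset.mem_sdiff] at hw ⊢
    obtain ⟨h1, h2⟩ := hT.1 w hw.1
    refine ⟨?_, (hT.2 w h1 h2).1 hw.1⟩
    by_contra h3
    exact hw.2 ((hU.2 w h1 h2).2 h3)
  · intro w hw
    rw [Finset.mem_sdiff] at hw ⊢
    obtain ⟨h1, h2⟩ := hU.1 w hw.1
    refine ⟨?_, (hU.2 w h1 h2).1 hw.1⟩
    by_contra h3
    exact hw.2 ((hT.2 w h1 h2).2 h3)
  · intro w hw
    obtain ⟨h1, h2⟩ := hT.1 w (Finset.mem_sdiff.1 hw).1
    exact hp.inv w h1 h2
  · intro w hw
    obtain ⟨h1, h2⟩ := hU.1 w (Finset.mem_sdiff.1 hw).1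
    exact hp.inv w h1 h2

omit [CharZero K] in
theorem card_sec {p : M → M} (hp : Inv B s Φ p) {T U : Finset M}
    (hT : Sec s Φ p T) (hU : Sec s Φ p U) : T.card = U.card := by
  classical
  have h1 := card_sdiff_sec hp hT hU
  have h2 := Finset.card_sdiff_add_card_inter T U
  have h3 := Finset.card_sdiff_add_card_inter U T
  rw [Finset.inter_comm] at h3
  omega

theorem card_even {α : Type*} [DecidableEq α] {R : Finset α} {a : α} (ha : a ∈ R) :
    (R.powerset.filter (fun T => Even T.card)).card = 2 ^ (R.card - 1) := by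
  rw [← Finset.card_erase_of_mem ha, ← Finset.card_powerset]
  refine (Finset.card_bij (fun U _ => if Even U.card then U else insert a U) ?_ ?_ ?_).symm
  · intro U hU
    rw [Finset.mem_powerset] at hU
    have hn : a ∉ U := fun h => (Finset.notMem_erase a R) (hU h)
    rw [Finset.mem_filter, Finset.mem_powerset]
    split_ifs with h1
    · exact ⟨hU.trans (Finset.erase_subset _ _), h1⟩
    · refine ⟨Finset.insert_subset ha (hU.trans (Finset.erase_subset _ _)), ?_⟩
      rw [Finset.card_insert_of_notMem hn]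
      exact (Nat.not_even_iff_odd.1 h1).add_one
  · intro U hU V hV hUV
    rw [Finset.mem_powerset] at hU hV
    have hn : a ∉ U := fun h => (Finset.notMem_erase a R) (hU h)
    have hn' : a ∉ V := fun h => (Finset.notMem_erase a R) (hV h)
    have e : ∀ W : Finset α, a ∉ W → (if Even W.card then W else insert a W).erase a = W := by
      intro W hW
      split_ifs
      · exact Finset.erase_eq_of_notMem hW
      · exact Finset.erase_insert hW
    rw [← e U hn, ← e V hn']
    exact congrArg (fun W => W.erase a) hUV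
  · intro T hT
    rw [Finset.mem_filter, Finset.mem_powerset] at hT
    refine ⟨T.erase a, Finset.mem_powerset.2 (Finset.erase_subset_erase _ hT.1), ?_⟩
    by_cases haT : a ∈ T
    · rw [if_neg, Finset.insert_erase haT]
      rw [Finset.card_erase_of_mem haT]
      have h1 : 0 < T.card := Finset.card_pos.2 ⟨a, haT⟩
      obtain ⟨m, hm⟩ := hT.2
      rintro ⟨l, hl⟩
      omega
    · rw [Finset.erase_eq_of_notMem haT, if_pos hT.2]

open Classical in
/-- the weights of the upper half correspond to the even subsets of a section -/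
theorem image_eq (h : USL B s c Φ X) {p : M → M} (hp : Inv B s Φ p) {x₀ : M} (hx₀ : x₀ ∈ X)
    (hs₀ : s x₀ = c) :
    Set.InjOn (fun x => S B s Φ x₀ \ S B s Φ x) (X.filter (fun x => s x = c)) ∧
    (X.filter (fun x => s x = c)).image (fun x => S B s Φ x₀ \ S B s Φ x) =
      (S B s Φ x₀).powerset.filter (fun T => Even T.card) := by
  set R := S B s Φ x₀ with hR
  have hRsec : Sec s Φ p R := sec_S h hp hx₀ hs₀
  constructor
  · intro x hx y hy hxy
    rw [Finset.mem_coe, Finset.mem_filter] at hx hy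
    have hxy' : R \ S B s Φ x = R \ S B s Φ y := hxy
    have hSx := sec_S h hp hx.1 hx.2
    have hSy := sec_S h hp hy.1 hy.2
    have key : ∀ {x y : M}, Sec s Φ p (S B s Φ x) → Sec s Φ p (S B s Φ y) →
        R \ S B s Φ x = R \ S B s Φ y → S B s Φ x ⊆ S B s Φ y := by
      intro x y hSx hSy hxy w hw
      obtain ⟨hwΦ, hsw⟩ := hSx.1 w hw
      by_cases hwR : w ∈ R
      · by_contra hcon
        have h1 : w ∈ R \ S B s Φ y := Finset.mem_sdiff.2 ⟨hwR, hcon⟩
        rw [← hxy] at h1
        exact (Finset.mem_sdiff.1 h1).2 hw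
      · have h1 : p w ∈ R := by
          by_contra h1
          exact hwR ((hRsec.2 w hwΦ hsw).2 h1)
        have h2 : p w ∈ R \ S B s Φ x :=
          Finset.mem_sdiff.2 ⟨h1, (hSx.2 w hwΦ hsw).1 hw⟩
        rw [hxy] at h2
        exact (hSy.2 w hwΦ hsw).2 (Finset.mem_sdiff.1 h2).2
    exact eq_of_S h (fun w hw hsw => CR2.f1 h hx.1 hx.2 hw hsw)
      (fun w hw hsw => CR2.f1 h hy.1 hy.2 hw hsw)
      (Finset.Subset.antisymm (key hSx hSy hxy') (key hSy hSx hxy'.symm))
  · ext T
    rw [Finset.mem_image, Finset.mem_filter, Finset.mem_powerset]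
    constructor
    · rintro ⟨x, hx, rfl⟩
      rw [Finset.mem_filter] at hx
      refine ⟨Finset.sdiff_subset, ?_⟩
      have := even_dist h hp hx₀ hx.1 hs₀ hx.2
      convert this
    · rintro ⟨hTR, hTe⟩
      have hU : Sec s Φ p (Φ.filter (fun w => s w = 1 ∧ ((w ∈ R ∧ w ∉ T) ∨ p w ∈ T))) := by
        refine ⟨fun w hw => ⟨(Finset.mem_filter.1 hw).1, (Finset.mem_filter.1 hw).2.1⟩, ?_⟩
        intro w hw hsw
        rw [Finset.mem_filter, Finset.mem_filter, hp.inv w hw hsw]
        have h1 := hRsec.2 w hw hsw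
        have h2 := hp.mem w hw hsw
        have h3 := hp.one w hw hsw
        have h4 : w ∈ T → w ∈ R := fun h => hTR h
        have h5 : p w ∈ T → p w ∈ R := fun h => hTR h
        tauto
      have e : R \ Φ.filter (fun w => s w = 1 ∧ ((w ∈ R ∧ w ∉ T) ∨ p w ∈ T)) = T := by
        ext w
        rw [Finset.mem_sdiff, Finset.mem_filter]
        constructor
        · rintro ⟨h1, h2⟩
          by_contra h3
          obtain ⟨h4, h5⟩ := hRsec.1 w h1
          exact h2 ⟨h4, h5, Or.inl ⟨h1, h3⟩⟩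
        · intro h1
          refine ⟨hTR h1, ?_⟩
          rintro ⟨h2, h3, h4 | h4⟩
          · exact h4.2 h1
          · exact (hRsec.2 w h2 h3).1 (hTR h1) (hTR h4)
      obtain ⟨m, hm⟩ := hTe
      obtain ⟨z, hz, hsz, hSz⟩ := reach h hp hU m x₀ hx₀ hs₀ (by
        rw [card_sdiff_sec hp hU hRsec, e, hm]
        ring)
      refine ⟨z, Finset.mem_filter.2 ⟨hz, hsz⟩, ?_⟩
      show R \ S B s Φ z = T
      rw [hSz, e]

open Classical in
theorem card_plus (h : USL B s c Φ X) {p : M → M} (hp : Inv B s Φ p) {x₀ a : M} (hx₀ : x₀ ∈ X)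
    (hs₀ : s x₀ = c) (ha : a ∈ S B s Φ x₀) :
    (X.filter (fun x => s x = c)).card = 2 ^ ((S B s Φ x₀).card - 1) := by
  obtain ⟨h1, h2⟩ := image_eq h hp hx₀ hs₀
  rw [← Finset.card_image_of_injOn h1, h2, card_even ha]

open Classical in
theorem card_one (h : USL B s c Φ X) {p : M → M} (hp : Inv B s Φ p) {x₀ a : M} (hx₀ : x₀ ∈ X)
    (hs₀ : s x₀ = c) (ha : a ∈ S B s Φ x₀) :
    (X.filter (fun x => B x a = 1)).card =
      (((S B s Φ x₀).erase a).powerset.filter (fun T => Even T.card)).card := by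
  obtain ⟨haΦ, hsa, -⟩ := mem_S.1 ha
  obtain ⟨h1, h2⟩ := image_eq h hp hx₀ hs₀
  have e1 : X.filter (fun x => B x a = 1) =
      (X.filter (fun x => s x = c)).filter (fun x => a ∉ S B s Φ x₀ \ S B s Φ x) := by
    ext x
    rw [Finset.mem_filter, Finset.mem_filter, Finset.mem_filter, Finset.mem_sdiff]
    constructor
    · rintro ⟨hx, hxa⟩
      refine ⟨⟨hx, (CR2.f1' h hx haΦ hsa hxa).1⟩, ?_⟩
      rintro ⟨-, h4⟩
      exact h4 (mem_S.2 ⟨haΦ, hsa, hxa⟩)
    · rintro ⟨⟨hx, hsx⟩, h3⟩
      refine ⟨hx, ?_⟩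
      have h4 : a ∈ S B s Φ x := by
        by_contra h4
        exact h3 ⟨ha, h4⟩
      exact (mem_S.1 h4).2.2
  have e2 : ((X.filter (fun x => s x = c)).filter (fun x => a ∉ S B s Φ x₀ \ S B s Φ x)).image
      (fun x => S B s Φ x₀ \ S B s Φ x) =
      (((S B s Φ x₀).erase a).powerset.filter (fun T => Even T.card)) := by
    have e3 := Finset.filter_image (s := X.filter (fun x => s x = c))
      (f := fun x => S B s Φ x₀ \ S B s Φ x) (p := fun T => a ∉ T)
    rw [← e3, h2]
    ext T
    simp only [Finset.mem_filter, Finset.mem_powerset, Finset.subset_erase]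
    tauto
  rw [e1, ← e2, Finset.card_image_of_injOn
    (h1.mono (Finset.coe_subset.mpr (Finset.filter_subset _ _)))]

omit [CharZero K] in
open Classical in
/-- the opposite system -/
theorem neg_USL (h : USL B s c Φ X) (hc : 2 * c = 1) :
    USL B s c Φ (X.image (fun x => -x)) where
  symm := h.symm
  two := h.two
  neg := h.neg
  pair := h.pair
  sub := h.sub
  small := by
    intro x hx a ha
    obtain ⟨y, hy, rfl⟩ := Finset.mem_image.1 hx
    rw [map_neg, LinearMap.neg_apply]
    rcases h.small y hy a ha with h1 | h1 | h1 <;> rw [h1]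
    · right; right; ring
    · right; left; ring
    · left; rfl
  xsub := by
    intro x hx a ha hxa
    obtain ⟨y, hy, rfl⟩ := Finset.mem_image.1 hx
    rw [map_neg, LinearMap.neg_apply] at hxa
    refine Finset.mem_image.2 ⟨y + a, CR2.xadd_mem h hy ha ?_, by abel⟩
    linear_combination -hxa
  sx := by
    intro x hx
    obtain ⟨y, hy, rfl⟩ := Finset.mem_image.1 hx
    rw [map_neg]
    rcases h.sx y hy with h1 | h1 <;> rw [h1]
    · right; linear_combination -hc
    · left; linear_combination -hc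
  faith := by
    intro a ha
    obtain ⟨x, hx, hxa⟩ := h.faith (-a) (h.neg a ha)
    refine ⟨-x, Finset.mem_image.2 ⟨x, hx, rfl⟩, ?_⟩
    rw [map_neg, LinearMap.neg_apply]
    rw [map_neg] at hxa
    exact hxa
  sep := by
    intro x hx y hy hxy
    obtain ⟨x', hx', rfl⟩ := Finset.mem_image.1 hx
    obtain ⟨y', hy', rfl⟩ := Finset.mem_image.1 hy
    obtain ⟨g, hg, h1, h2⟩ := h.sep y' hy' x' hx' (fun h3 => hxy (by rw [h3]))
    refine ⟨g, hg, ?_, ?_⟩
    · rw [map_neg, LinearMap.neg_apply, h2, neg_neg]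
    · rw [map_neg, LinearMap.neg_apply, h1]
  ex := h.ex
  hit := h.hit
  conn := h.conn

/-- an odd number of pairs makes the weights symmetric -/
theorem neg_mem (h : USL B s c Φ X) {p : M → M} (hp : Inv B s Φ p) {x : M} (hx : x ∈ X)
    (hsx : s x = c) (hodd : Odd (S B s Φ x).card) : -x ∈ X := by
  classical
  have hc := two_c h hp
  have h' := neg_USL h hc
  obtain ⟨a, ha⟩ : (S B s Φ x).Nonempty := Finset.card_pos.1 hodd.pos
  obtain ⟨haΦ, hsa, hxa⟩ := mem_S.1 ha
  have hSx := sec_S h hp hx hsx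
  have hy : -(x - a) ∈ X.image (fun x => -x) :=
    Finset.mem_image.2 ⟨x - a, h.xsub x hx a haΦ hxa, rfl⟩
  have hsy : s (-(x - a)) = c := by
    rw [map_neg, map_sub, hsx, hsa]
    linear_combination -hc
  have hval : ∀ w, B (-(x - a)) w = B a w - B x w := by
    intro w
    simp only [map_neg, map_sub, LinearMap.neg_apply, LinearMap.sub_apply]
    ring
  have e : S B s Φ x \ S B s Φ (-(x - a)) = (S B s Φ x).erase a := by
    ext w
    rw [Finset.mem_sdiff, Finset.mem_erase]
    constructor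
    · rintro ⟨h1, h2⟩
      refine ⟨?_, h1⟩
      rintro rfl
      apply h2
      refine mem_S.2 ⟨haΦ, hsa, ?_⟩
      rw [hval, h.two w haΦ, hxa]
      norm_num
    · rintro ⟨h1, h2⟩
      refine ⟨h2, fun h3 => ?_⟩
      have h4 := (mem_S.1 h3).2.2
      obtain ⟨hwΦ, hsw, hxw⟩ := mem_S.1 h2
      have h5 : w ≠ p a := by
        rintro rfl
        exact (hSx.2 a haΦ hsa).1 ha h2
      rw [hval, hp.adj a haΦ w hwΦ hsa hsw h1 h5, hxw, sub_self] at h4
      exact zero_ne_one h4
  obtain ⟨m, hm⟩ := hodd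
  obtain ⟨z, hz, hsz, hSz⟩ := reach h' hp hSx m _ hy hsy (by
    have e' : (S B s Φ x \ S B s Φ (-(x - a))).card = 2 * m := by
      rw [e, Finset.card_erase_of_mem ha, hm]
      rfl
    convert e')
  have hzx : z = x := eq_of_S h (fun w hw hsw => CR2.f1 h' hz hsz hw hsw)
    (fun w hw hsw => CR2.f1 h hx hsx hw hsw) hSz
  rw [hzx] at hz
  obtain ⟨y, hy, hyx⟩ := Finset.mem_image.1 hz
  have : -x = y := by
    rw [← hyx, neg_neg]
  rw [this]
  exact hy

end CE4

section comb

variable {K : Type*} [Field K] [CharZero K] {M : Type*} [AddCommGroup M] [Module K M]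
  {B : LinearMap.BilinForm K M} {s : M →ₗ[K] K} {c : K} {Φ X : Finset M}

open Classical CE4 in
/-- CE4: spin systems. -/
theorem USL.spin (h : USL B s c Φ X)
    (heq : (X.filter (fun x => s x = c)).card = (X.filter (fun x => s x = c - 1)).card)
    (hneg : ¬ ∀ x ∈ X, -x ∈ X)
    (hr : ∃ a ∈ Φ, s a = 1 ∧ (X.filter (fun x => B x a = 1)).card ≠ 1)
    {α β : M} (hα : α ∈ Φ) (hβ : β ∈ Φ) (hsα : s α = 1) (hsβ : s β = 1) (hαβ : B β α = 0)
    (hu : ∀ γ ∈ Φ, s γ = 1 → B β γ = 0 → γ = α) :
    ∃ n, Odd n ∧ 5 ≤ n ∧ X.card = 2 ^ (n - 1) ∧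
      (X.filter (fun x => s x = c)).card = 2 ^ (n - 2) ∧
      (∀ a ∈ Φ, (X.filter (fun x => B x a = 1)).card = 2 ^ (n - 3)) := by
  obtain ⟨p, hp⟩ := exists_inv h hα hβ hsα hsβ hαβ hu
  have hc := two_c h hp
  have hcc : c ≠ c - 1 := by
    intro h1
    have : (1 : K) = 0 := by linear_combination h1
    exact one_ne_zero this
  obtain ⟨a₀, ha₀, hsa₀, hra₀⟩ := hr
  obtain ⟨x₀, hx₀, hxa₀⟩ := h.faith a₀ ha₀
  have hs₀ := (CR2.f1' h hx₀ ha₀ hsa₀ hxa₀).1
  have ha₀S : a₀ ∈ S B s Φ x₀ := mem_S.2 ⟨ha₀, hsa₀, hxa₀⟩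
  have hR := sec_S h hp hx₀ hs₀
  set N := (S B s Φ x₀).card with hN
  -- the counts at the roots of value one
  have count : ∀ a ∈ Φ, s a = 1 → ∀ x ∈ X, B x a = 1 → 2 ≤ N →
      (X.filter (fun x => B x a = 1)).card = 2 ^ (N - 2) := by
    intro a ha hsa x hx hxa hN2
    have hsx := (CR2.f1' h hx ha hsa hxa).1
    have haS : a ∈ S B s Φ x := mem_S.2 ⟨ha, hsa, hxa⟩
    have hcard : (S B s Φ x).card = N := card_sec hp (sec_S h hp hx hsx) hR
    rw [card_one h hp hx hsx haS]
    have h1 : ((S B s Φ x).erase a).card = N - 1 := by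
      rw [Finset.card_erase_of_mem haS, hcard]
    obtain ⟨b, hb⟩ : ((S B s Φ x).erase a).Nonempty := Finset.card_pos.1 (by omega)
    rw [card_even hb, h1]
    congr 1
  have hN2 : 2 ≤ N := by
    by_contra hcon
    apply hra₀
    rw [card_one h hp hx₀ hs₀ ha₀S]
    have h1 : (S B s Φ x₀).erase a₀ = ∅ := by
      rw [← Finset.card_eq_zero, Finset.card_erase_of_mem ha₀S]
      omega
    rw [h1, Finset.powerset_empty, Finset.filter_singleton, if_pos (by simp)]
    rfl
  have hN3 : 3 ≤ N := by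
    by_contra hcon
    apply hra₀
    rw [count a₀ ha₀ hsa₀ x₀ hx₀ hxa₀ hN2]
    have : N - 2 = 0 := by omega
    rw [this, pow_zero]
  have cplus : (X.filter (fun x => s x = c)).card = 2 ^ (N - 1) :=
    card_plus h hp hx₀ hs₀ ha₀S
  -- the number of pairs is even
  have hNe : Even N := by
    by_contra hodd
    rw [Nat.not_even_iff_odd] at hodd
    apply hneg
    have hplus : ∀ x ∈ X, s x = c → -x ∈ X := by
      intro x hx hsx
      apply neg_mem h hp hx hsx
      rw [card_sec hp (sec_S h hp hx hsx) hR]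
      exact hodd
    have himage : (X.filter (fun x => s x = c)).image (fun x => -x) =
        X.filter (fun x => s x = c - 1) := by
      refine Finset.eq_of_subset_of_card_le ?_ ?_
      · intro y hy
        obtain ⟨x, hx, rfl⟩ := Finset.mem_image.1 hy
        rw [Finset.mem_filter] at hx ⊢
        refine ⟨hplus x hx.1 hx.2, ?_⟩
        rw [map_neg, hx.2]
        linear_combination -hc
      · rw [Finset.card_image_of_injective _ neg_injective, heq]
    intro x hx
    rcases h.sx x hx with h1 | h1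
    · exact hplus x hx h1
    · have h2 : x ∈ (X.filter (fun x => s x = c)).image (fun x => -x) := by
        rw [himage]
        exact Finset.mem_filter.2 ⟨hx, h1⟩
      obtain ⟨y, hy, hyx⟩ := Finset.mem_image.1 h2
      rw [← hyx, neg_neg]
      exact (Finset.mem_filter.1 hy).1
  have cX : X.card = 2 ^ N := by
    have h1 : X = X.filter (fun x => s x = c) ∪ X.filter (fun x => s x = c - 1) := by
      ext x
      rw [Finset.mem_union, Finset.mem_filter, Finset.mem_filter]
      constructor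
      · intro hx
        rcases h.sx x hx with h1 | h1
        · exact Or.inl ⟨hx, h1⟩
        · exact Or.inr ⟨hx, h1⟩
      · rintro (h1 | h1)
        · exact h1.1
        · exact h1.1
    have h2 : Disjoint (X.filter (fun x => s x = c)) (X.filter (fun x => s x = c - 1)) := by
      rw [Finset.disjoint_left]
      intro x h2 h3
      exact hcc ((Finset.mem_filter.1 h2).2.symm.trans (Finset.mem_filter.1 h3).2)
    rw [h1, Finset.card_union_of_disjoint h2, ← heq, cplus]
    obtain ⟨m, hm⟩ : ∃ m, N = m + 1 := ⟨N - 1, by omega⟩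
    rw [hm, Nat.add_sub_cancel]
    ring
  -- reflections
  have hrefl : ∀ a ∈ Φ, (X.filter (fun x => B x (-a) = 1)).card =
      (X.filter (fun x => B x a = 1)).card := by
    intro a ha
    refine Finset.card_bij' (fun x _ => x - (B x a) • a) (fun x _ => x - (B x a) • a)
      ?_ ?_ ?_ ?_
    · intro x hx
      rw [Finset.mem_filter] at hx ⊢
      refine ⟨h.refl_mem hx.1 ha, ?_⟩
      have h1 := hx.2
      rw [map_neg] at h1
      simp only [map_sub, map_smul, LinearMap.sub_apply, LinearMap.smul_apply, smul_eq_mul,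
        h.two a ha]
      linear_combination h1
    · intro x hx
      rw [Finset.mem_filter] at hx ⊢
      refine ⟨h.refl_mem hx.1 ha, ?_⟩
      have h1 := hx.2
      simp only [map_neg, map_sub, map_smul, LinearMap.sub_apply, LinearMap.smul_apply,
        smul_eq_mul, h.two a ha]
      linear_combination h1
    · intro x _
      simp only [map_sub, map_smul, LinearMap.sub_apply, LinearMap.smul_apply, smul_eq_mul,
        h.two a ha]
      rw [show B x a - B x a * 2 = -B x a by ring, neg_smul]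
      abel
    · intro x _
      simp only [map_sub, map_smul, LinearMap.sub_apply, LinearMap.smul_apply, smul_eq_mul,
        h.two a ha]
      rw [show B x a - B x a * 2 = -B x a by ring, neg_smul]
      abel
  have num1 : ∀ a ∈ Φ, s a = 1 → (X.filter (fun x => B x a = 1)).card = 2 ^ (N - 2) := by
    intro a ha hsa
    obtain ⟨x, hx, hxa⟩ := h.faith a ha
    exact count a ha hsa x hx hxa hN2
  refine ⟨N + 1, hNe.add_one, ?_, ?_, ?_, ?_⟩
  · obtain ⟨m, hm⟩ := hNe
    omega
  · rw [cX]; rfl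
  · rw [cplus]; rfl
  · intro g hg
    have e : N + 1 - 3 = N - 2 := by omega
    rw [e]
    rcases h.root_cases hg with h1 | ⟨a, ha, hsa, rfl⟩ | ⟨a, ha, b, hb, hsa, hsb, hab, rfl⟩
    · exact num1 g hg h1
    · rw [hrefl a ha]
      exact num1 a ha hsa
    · have h2 := h.two _ hg
      have h3 : B b a = B a b := h.symm _ _
      simp only [map_sub, LinearMap.sub_apply, h.two a ha, h.two b hb, h3] at h2
      have h4 : B (a - b) a = 1 := by
        rw [map_sub, LinearMap.sub_apply, h.two a ha, h3]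
        have h5 : (2 : K) * (B a b - 1) = 0 := by linear_combination -h2
        have h6 : B a b - 1 = 0 := (mul_eq_zero.1 h5).resolve_left two_ne_zero
        linear_combination -h6
      rw [CR2.card_eq h hg ha h4]
      exact num1 a ha hsa

end comb

end UN
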